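import Mathlib

set_option autoImplicit false

namespace Pool.Agent.Results.MP_60c8e6_al.AntiCap

open Matrix MeasureTheory Pointwise

/-- The group SO(3,ℝ), with the subspace topology from the 3x3 real matrices. -/
abbrev SO3 : Type := Matrix.specialOrthogonalGroup (Fin 3) ℝ

/-- The cap `C(u,θ)`: rotations moving `u` by an angle less than `θ`. -/
def cap (u : Fin 3 → ℝ) (θ : ℝ) : Set SO3 :=
  {g | Real.arccos (u ⬝ᵥ ((g : Matrix (Fin 3) (Fin 3) ℝ) *ᵥ u)) < θ}

lemma cap_open (u : Fin 3 → ℝ) (θ : ℝ) : IsOpen (cap u θ) := by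
  apply isOpen_lt _ continuous_const
  apply Real.continuous_arccos.comp
  exact continuous_const.dotProduct (continuous_subtype_val.matrix_mulVec continuous_const)

lemma one_mem_cap (u : Fin 3 → ℝ) (hu : u ⬝ᵥ u = 1) (θ : ℝ) (h : 0 < θ) : (1 : SO3) ∈ cap u θ := by
  simp [cap, hu, h]

def s : SO3 := ⟨!![0, 1, 0; -1, 0, 0; 0, 0, 1], by
  rw [Matrix.mem_specialOrthogonalGroup_iff, Matrix.mem_orthogonalGroup_iff]
  constructor
  · ext i j; fin_cases i <;> fin_cases j <;> simp [Matrix.mul_apply, Fin.sum_univ_succ]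
  · simp [Matrix.det_fin_three]⟩

def r : SO3 := ⟨!![-1, 0, 0; 0, -1, 0; 0, 0, 1], by
  rw [Matrix.mem_specialOrthogonalGroup_iff, Matrix.mem_orthogonalGroup_iff]
  constructor
  · ext i j; fin_cases i <;> fin_cases j <;> simp [Matrix.mul_apply, Fin.sum_univ_succ]
  · simp [Matrix.det_fin_three]⟩

lemma rr : r * r = 1 := by
  apply Subtype.ext
  ext i j; fin_cases i <;> fin_cases j <;> simp [r, Matrix.mul_apply, Fin.sum_univ_succ]

noncomputable def C : Set SO3 := cap ![1, 0, 0] (Real.pi / 4)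

lemma mem_C (g : SO3) : g ∈ C ↔ Real.arccos (g.1 0 0) < Real.pi / 4 := by
  simp [C, cap, dotProduct, mulVec, Fin.sum_univ_succ]

lemma C_big {g : SO3} (h : g ∈ C) : 1 / 2 < g.1 0 0 ^ 2 ∧ 0 < g.1 0 0 := by
  rw [mem_C] at h
  have h1 : √2 / 2 < g.1 0 0 := by
    by_contra hh
    push Not at hh
    have := Real.arccos_le_arccos hh
    rw [← Real.cos_pi_div_four, Real.arccos_cos (by positivity) (by linarith [Real.pi_pos])] at this
    linarith
  have h2 : (√2 : ℝ) ^ 2 = 2 := Real.sq_sqrt (by norm_num)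
  have h3 : 0 < (√2 : ℝ) / 2 := by positivity
  exact ⟨by nlinarith, by linarith⟩

lemma col (g : SO3) : g.1 0 0 ^ 2 + g.1 1 0 ^ 2 ≤ 1 := by
  have h := (Matrix.mem_specialOrthogonalGroup_iff.1 g.2).1
  rw [Matrix.mem_orthogonalGroup_iff'] at h
  have := congrFun (congrFun h 0) 0
  simp [Matrix.mul_apply, Fin.sum_univ_succ] at this
  nlinarith [sq_nonneg (g.1 2 0)]

lemma r00 (g : SO3) : (r * g).1 0 0 = -g.1 0 0 := by
  simp [r, Matrix.mul_apply, Fin.sum_univ_succ]

lemma s00 (g : SO3) : (s * g).1 0 0 = g.1 1 0 := by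
  simp [s, Matrix.mul_apply, Fin.sum_univ_succ]

lemma rgr {g : SO3} (h : g ∈ C) : r * g * r ∈ C := by
  rw [mem_C] at h ⊢
  have : (r * g * r).1 0 0 = g.1 0 0 := by
    simp [r, Matrix.mul_apply, Fin.sum_univ_succ, Matrix.vecMul, dotProduct]
  rwa [this]

noncomputable def A : Set SO3 := (fun h => r * h) ⁻¹' C

lemma AA : A * A = C * C := by
  ext x
  constructor
  · rintro ⟨a, ha, b, hb, rfl⟩
    refine ⟨r * (r * a) * r, rgr ha, r * b, hb, ?_⟩
    show r * (r * a) * r * (r * b) = a * b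
    rw [← mul_assoc r r a, rr, one_mul, mul_assoc, ← mul_assoc r r b, rr, one_mul]
  · rintro ⟨a, ha, b, hb, rfl⟩
    refine ⟨a * r, ?_, r * b, ?_, ?_⟩
    · show r * (a * r) ∈ C
      rw [← mul_assoc]; exact rgr ha
    · show r * (r * b) ∈ C
      rw [← mul_assoc, rr, one_mul]; exact hb
    · show a * r * (r * b) = a * b
      rw [mul_assoc, ← mul_assoc r r b, rr, one_mul]

/-- The characterisation of the equality case by caps fails for the normalised Haar measure. -/
theorem result [MeasurableSpace SO3] [BorelSpace SO3] (μ : Measure SO3) [μ.IsHaarMeasure]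
    [IsProbabilityMeasure μ] :
    ¬ ∀ A : Set SO3, IsOpen A → A.Nonempty → μ.real A < 1 / 2 →
      (μ.real (A * A) = 4 * μ.real A * (1 - μ.real A) ↔
        ∃ (u : Fin 3 → ℝ) (θ : ℝ), u ⬝ᵥ u = 1 ∧ 0 < θ ∧ θ ≤ Real.pi ∧
          μ (symmDiff A (cap u θ)) = 0) := by
  intro h
  have hu : (![1, 0, 0] : Fin 3 → ℝ) ⬝ᵥ ![1, 0, 0] = 1 := by simp
  have hpi := Real.pi_pos
  have oC : IsOpen C := cap_open _ _
  have oA : IsOpen A := oC.preimage (continuous_const_mul r)
  have oB : IsOpen ((fun h => s * h) ⁻¹' C) := oC.preimage (continuous_const_mul s)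
  have c1 : (1 : SO3) ∈ C := one_mem_cap _ hu _ (by positivity)
  have mA : μ.real A = μ.real C := by
    unfold Measure.real A; rw [measure_preimage_mul]
  have mB : μ.real ((fun h => s * h) ⁻¹' C) = μ.real C := by
    unfold Measure.real; rw [measure_preimage_mul]
  have d1 : Disjoint A C := by
    rw [Set.disjoint_left]
    intro g h1 h2
    have a1 := (C_big h1).2
    have a2 := (C_big h2).2
    rw [r00] at a1; linarith
  have d2 : Disjoint (A ∪ C) ((fun h => s * h) ⁻¹' C) := by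
    rw [Set.disjoint_left]
    rintro g (h1 | h1) h2
    · have a1 := (C_big h1).1
      have a2 := (C_big h2).1
      rw [r00] at a1; rw [s00] at a2
      nlinarith [col g]
    · have a1 := (C_big h1).1
      have a2 := (C_big h2).1
      rw [s00] at a2
      nlinarith [col g]
  have small : μ.real C < 1 / 2 := by
    have e1 := measureReal_union (μ := μ) d1 oC.measurableSet
    have e2 := measureReal_union (μ := μ) d2 oB.measurableSet
    have e3 : μ.real ((A ∪ C) ∪ ((fun h => s * h) ⁻¹' C)) ≤ 1 := measureReal_le_one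
    linarith
  have h1 := (h C oC ⟨1, c1⟩ small).2 ⟨![1, 0, 0], Real.pi / 4, hu, by positivity, by linarith, by
    show μ (symmDiff C C) = 0
    simp⟩
  obtain ⟨u, θ, hu', h0, -, h2⟩ := (h A oA ⟨r, by
    show r * r ∈ C
    rw [rr]; exact c1⟩ (by rw [mA]; exact small)).1 (by rw [AA, mA]; exact h1)
  have h3 : C ∩ cap u θ ⊆ symmDiff A (cap u θ) := by
    rintro g ⟨g1, g2⟩
    right
    exact ⟨g2, fun g3 => Set.disjoint_left.1 d1 g3 g1⟩
  have h4 := (oC.inter (cap_open u θ)).measure_pos μ ⟨1, c1, one_mem_cap u hu' θ h0⟩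
  exact absurd (measure_mono_null h3 h2) h4.ne'

end Pool.Agent.Results.MP_60c8e6_al.AntiCap
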